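import Pool.Agent.helper70.GB.SpecK

/-!
# Project gb, module KE: existence of `K_1`

`K_1 A` is constructed as the set of invertible matrices modulo stable elementary equivalence and
reindexing; the addition is the block sum.
-/

set_option linter.unusedSectionVars false

open Matrix

namespace GB

universe u

section KE

variable {A : Type u} [CommRing A]
variable {ι κ l μ α β : Type} [Fintype ι] [DecidableEq ι] [Fintype κ] [DecidableEq κ]
  [Fintype l] [DecidableEq l] [Fintype μ] [DecidableEq μ] [Fintype α] [DecidableEq α]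
  [Fintype β] [DecidableEq β]

theorem KE_dsum_mul (M M' : Matrix ι ι A) (N N' : Matrix κ κ A) :
    dsum M N * dsum M' N' = dsum (M * M') (N * N') := by
  simp [dsum, Matrix.fromBlocks_multiply]

theorem KE_dsum_one : dsum (1 : Matrix ι ι A) (1 : Matrix κ κ A) = 1 := by
  simp [dsum]

theorem KE_dsum_det (M : Matrix ι ι A) (N : Matrix κ κ A) :
    (dsum M N).det = M.det * N.det := by
  simp [dsum]

theorem KE_dsum_E {M : Matrix ι ι A} {N : Matrix κ κ A} (hM : M ∈ E ι A) (hN : N ∈ E κ A) :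
    dsum M N ∈ E (ι ⊕ κ) A := by
  have h : dsum M N = dsum M 1 * dsum 1 N := by
    rw [KE_dsum_mul, Matrix.mul_one, Matrix.one_mul]
  rw [h]
  exact E_mul (E_blocks_left hM) (E_blocks_right hN)

/-- Whitehead lemma. -/
theorem KE_whitehead (M M' : Matrix ι ι A) (h : M * M' = 1) : dsum M M' ∈ E (ι ⊕ ι) A := by
  have h' : M' * M = 1 := mul_eq_one_comm.1 h
  have e : dsum M M' = fromBlocks 1 M 0 1 * fromBlocks 1 0 (-M') 1 * fromBlocks 1 M 0 1 *
      (fromBlocks 1 (-1) 0 1 * fromBlocks 1 0 1 1 * fromBlocks 1 (-1) 0 1) := by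
    simp [dsum, Matrix.fromBlocks_multiply, h, h']
  rw [e]
  exact E_mul (E_mul (E_mul (E_blocks_upper _) (E_blocks_lower _)) (E_blocks_upper _))
    (E_mul (E_mul (E_blocks_upper _) (E_blocks_lower _)) (E_blocks_upper _))

/-- Stable elementary equivalence up to reindexing. -/
def KE_Rel (M : Matrix ι ι A) (N : Matrix κ κ A) : Prop :=
  ∃ (α β : Type) (_ : Fintype α) (_ : DecidableEq α) (_ : Fintype β) (_ : DecidableEq β)
    (e : κ ⊕ β ≃ ι ⊕ α), ∃ P ∈ E (κ ⊕ β) A,
      (dsum M (1 : Matrix α α A)).submatrix e e = dsum N (1 : Matrix β β A) * P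

theorem KE_Rel.refl (M : Matrix ι ι A) : KE_Rel M M :=
  ⟨Fin 0, Fin 0, inferInstance, inferInstance, inferInstance, inferInstance, Equiv.refl _, 1,
    one_mem_E, by simp⟩

theorem KE_Rel.symm {M : Matrix ι ι A} {N : Matrix κ κ A} (h : KE_Rel M N) : KE_Rel N M := by
  obtain ⟨α, β, i1, i2, i3, i4, e, P, hP, h1⟩ := h
  obtain ⟨Q, hQ, h2, h3⟩ := exists_inv_of_mem_E hP
  refine ⟨β, α, i3, i4, i1, i2, e.symm, Q.submatrix e.symm e.symm, E_submatrix e.symm hQ, ?_⟩
  have h4 : dsum N (1 : Matrix β β A) = (dsum M (1 : Matrix α α A)).submatrix e e * Q := by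
    rw [h1, Matrix.mul_assoc, h2, Matrix.mul_one]
  rw [h4, ← Matrix.submatrix_mul_equiv _ _ _ e.symm _, Matrix.submatrix_submatrix]
  simp

/-- Adding a summand. -/
theorem KE_stab {M : Matrix ι ι A} {N : Matrix κ κ A} {e : κ ⊕ β ≃ ι ⊕ α}
    {P : Matrix (κ ⊕ β) (κ ⊕ β) A} (hP : P ∈ E (κ ⊕ β) A)
    (h : (dsum M (1 : Matrix α α A)).submatrix e e = dsum N (1 : Matrix β β A) * P)
    (L : Matrix μ μ A) :
    ∃ Q ∈ E (κ ⊕ (β ⊕ μ)) A, (dsum M (dsum (1 : Matrix α α A) L)).submatrix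
      ((Equiv.sumAssoc κ β μ).symm.trans ((e.sumCongr (Equiv.refl μ)).trans (Equiv.sumAssoc ι α μ)))
      ((Equiv.sumAssoc κ β μ).symm.trans ((e.sumCongr (Equiv.refl μ)).trans (Equiv.sumAssoc ι α μ))) =
        dsum N (dsum (1 : Matrix β β A) L) * Q := by
  refine ⟨(dsum P (1 : Matrix μ μ A)).submatrix (Equiv.sumAssoc κ β μ).symm
    (Equiv.sumAssoc κ β μ).symm, E_submatrix _ (E_blocks_left hP), ?_⟩
  have e1 : (dsum M (dsum (1 : Matrix α α A) L)).submatrix (Equiv.sumAssoc ι α μ)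
      (Equiv.sumAssoc ι α μ) = dsum (dsum M 1) L := by
    ext (( i | i) | i) ((j | j) | j) <;> simp [dsum]
  have e2 : dsum N (dsum (1 : Matrix β β A) L) = (dsum (dsum N (1 : Matrix β β A)) L).submatrix
      (Equiv.sumAssoc κ β μ).symm (Equiv.sumAssoc κ β μ).symm := by
    ext (i | (i | i)) (j | (j | j)) <;> simp [dsum]
  have e3 : (dsum (dsum M (1 : Matrix α α A)) L).submatrix (e.sumCongr (Equiv.refl μ))
      (e.sumCongr (Equiv.refl μ)) = dsum ((dsum M (1 : Matrix α α A)).submatrix e e) L := by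
    ext (i | i) (j | j) <;> simp [dsum]
  rw [e2, Matrix.submatrix_mul_equiv, KE_dsum_mul, Matrix.mul_one, ← h, ← e3, ← e1,
    Matrix.submatrix_submatrix, Matrix.submatrix_submatrix]
  rfl

theorem KE_one_submatrix (e : κ ≃ ι) : (1 : Matrix ι ι A).submatrix e e = 1 :=
  Matrix.submatrix_one_equiv e

theorem KE_comm_mid (N : Matrix κ κ A) :
    (dsum N (1 : Matrix (α ⊕ β) (α ⊕ β) A)).submatrix
      ((Equiv.refl κ).sumCongr (Equiv.sumComm β α)) ((Equiv.refl κ).sumCongr (Equiv.sumComm β α)) =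
      dsum N 1 := by
  have h : (dsum N (1 : Matrix (α ⊕ β) (α ⊕ β) A)).submatrix
      ((Equiv.refl κ).sumCongr (Equiv.sumComm β α)) ((Equiv.refl κ).sumCongr (Equiv.sumComm β α)) =
      dsum N ((1 : Matrix (α ⊕ β) (α ⊕ β) A).submatrix (Equiv.sumComm β α) (Equiv.sumComm β α)) := by
    ext (i | i) (j | j) <;> simp [dsum]
  rw [h, KE_one_submatrix]

theorem KE_Rel.trans {M : Matrix ι ι A} {N : Matrix κ κ A} {L : Matrix l l A} (h : KE_Rel M N)
    (h' : KE_Rel N L) : KE_Rel M L := by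
  obtain ⟨α, β, i1, i2, i3, i4, e, P, hP, h1⟩ := h
  obtain ⟨α', β', j1, j2, j3, j4, e', P', hP', h1'⟩ := h'
  obtain ⟨Q1, hQ1, h2⟩ := KE_stab hP h1 (1 : Matrix α' α' A)
  obtain ⟨Q2, hQ2, h3⟩ := KE_stab hP' h1' (1 : Matrix β β A)
  rw [KE_dsum_one, KE_dsum_one] at h2 h3
  set e1 := (Equiv.sumAssoc κ β α').symm.trans
    ((e.sumCongr (Equiv.refl α')).trans (Equiv.sumAssoc ι α α'))
  set e2 := (Equiv.sumAssoc l β' β).symm.trans
    ((e'.sumCongr (Equiv.refl β)).trans (Equiv.sumAssoc κ α' β))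
  set c : κ ⊕ (α' ⊕ β) ≃ κ ⊕ (β ⊕ α') := (Equiv.refl κ).sumCongr (Equiv.sumComm α' β)
  refine ⟨α ⊕ α', β' ⊕ β, inferInstance, inferInstance, inferInstance, inferInstance,
    e2.trans (c.trans e1), Q2 * (Q1.submatrix c c).submatrix e2 e2,
    E_mul hQ2 (E_submatrix _ (E_submatrix _ hQ1)), ?_⟩
  have h4 : (dsum M (1 : Matrix (α ⊕ α') (α ⊕ α') A)).submatrix (e2.trans (c.trans e1))
      (e2.trans (c.trans e1)) =
      (((dsum M (1 : Matrix (α ⊕ α') (α ⊕ α') A)).submatrix e1 e1).submatrix c c).submatrix e2 e2 := by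
    rw [Matrix.submatrix_submatrix, Matrix.submatrix_submatrix]
    rfl
  rw [h4, h2, ← Matrix.submatrix_mul_equiv _ _ _ c _, ← Matrix.submatrix_mul_equiv _ _ _ e2 _,
    KE_comm_mid, h3, Matrix.mul_assoc]

theorem KE_Rel_submatrix (M : Matrix ι ι A) (e : κ ≃ ι) : KE_Rel M (M.submatrix e e) := by
  refine ⟨Fin 0, Fin 0, inferInstance, inferInstance, inferInstance, inferInstance,
    e.sumCongr (Equiv.refl _), 1, one_mem_E, ?_⟩
  rw [Matrix.mul_one]
  ext (i | i) (j | j)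
  · simp [dsum]
  · exact Fin.elim0 j
  · exact Fin.elim0 i
  · exact Fin.elim0 i

theorem KE_Rel_dsum_one (M : Matrix ι ι A) : KE_Rel M (dsum M (1 : Matrix κ κ A)) := by
  refine ⟨κ ⊕ Fin 0, Fin 0, inferInstance, inferInstance, inferInstance, inferInstance,
    Equiv.sumAssoc ι κ (Fin 0), 1, one_mem_E, ?_⟩
  rw [Matrix.mul_one]
  ext ((i | i) | i) ((j | j) | j) <;> simp [dsum, Matrix.one_apply]

theorem KE_Rel_mul_E (M : Matrix ι ι A) {P : Matrix ι ι A} (hP : P ∈ E ι A) : KE_Rel (M * P) M := by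
  refine ⟨Fin 0, Fin 0, inferInstance, inferInstance, inferInstance, inferInstance,
    Equiv.refl _, dsum P 1, E_blocks_left hP, ?_⟩
  rw [KE_dsum_mul]
  simp

theorem KE_Rel_dsum_left {M : Matrix ι ι A} {N : Matrix κ κ A} (h : KE_Rel M N)
    (L : Matrix μ μ A) : KE_Rel (dsum M L) (dsum N L) := by
  obtain ⟨α, β, i1, i2, i3, i4, e, P, hP, h1⟩ := h
  obtain ⟨Q, hQ, h2⟩ := KE_stab hP h1 L
  have key : ∀ {ι α : Type} [Fintype ι] [DecidableEq ι] [Fintype α] [DecidableEq α]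
      (M : Matrix ι ι A), KE_Rel (dsum M L) (dsum M (dsum (1 : Matrix α α A) L)) := by
    intro ι α _ _ _ _ M
    refine (KE_Rel_dsum_one (κ := α) (dsum M L)).trans ?_
    have h3 : dsum M (dsum (1 : Matrix α α A) L) = (dsum (dsum M L) (1 : Matrix α α A)).submatrix
        (((Equiv.refl ι).sumCongr (Equiv.sumComm α μ)).trans (Equiv.sumAssoc ι μ α).symm)
        (((Equiv.refl ι).sumCongr (Equiv.sumComm α μ)).trans (Equiv.sumAssoc ι μ α).symm) := by
      ext (i | (i | i)) (j | (j | j)) <;> simp [dsum]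
    rw [h3]
    exact KE_Rel_submatrix _ _
  refine (key (α := α) M).trans ?_
  refine KE_Rel.trans ?_ (key (α := β) N).symm
  refine (KE_Rel_submatrix _ ((Equiv.sumAssoc κ β μ).symm.trans
    ((e.sumCongr (Equiv.refl μ)).trans (Equiv.sumAssoc ι α μ)))).trans ?_
  rw [h2]
  exact KE_Rel_mul_E _ hQ

theorem KE_Rel_dsum_comm (M : Matrix ι ι A) (N : Matrix κ κ A) : KE_Rel (dsum M N) (dsum N M) := by
  have h : dsum N M = (dsum M N).submatrix (Equiv.sumComm κ ι) (Equiv.sumComm κ ι) := by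
    ext (i | i) (j | j) <;> simp [dsum]
  rw [h]
  exact KE_Rel_submatrix _ _

theorem KE_Rel_dsum {M : Matrix ι ι A} {N : Matrix κ κ A} {M' : Matrix l l A} {N' : Matrix μ μ A}
    (h : KE_Rel M N) (h' : KE_Rel M' N') : KE_Rel (dsum M M') (dsum N N') := by
  refine (KE_Rel_dsum_left h M').trans ?_
  refine (KE_Rel_dsum_comm _ _).trans ?_
  refine (KE_Rel_dsum_left h' N).trans ?_
  exact KE_Rel_dsum_comm _ _

theorem KE_Rel_assoc (M : Matrix ι ι A) (N : Matrix κ κ A) (L : Matrix μ μ A) :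
    KE_Rel (dsum (dsum M N) L) (dsum M (dsum N L)) := by
  have h : dsum M (dsum N L) = (dsum (dsum M N) L).submatrix (Equiv.sumAssoc ι κ μ).symm
      (Equiv.sumAssoc ι κ μ).symm := by
    ext (i | (i | i)) (j | (j | j)) <;> simp [dsum]
  rw [h]
  exact KE_Rel_submatrix _ _

theorem KE_Rel_mul (M N : Matrix ι ι A) (hN : IsUnit N.det) : KE_Rel (M * N) (dsum M N) := by
  refine (KE_Rel_dsum_one (κ := ι) (M * N)).trans ?_
  have h : dsum (M * N) (1 : Matrix ι ι A) = dsum M N * dsum N N⁻¹ := by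
    rw [KE_dsum_mul, Matrix.mul_nonsing_inv _ hN]
  rw [h]
  exact KE_Rel_mul_E _ (KE_whitehead _ _ (Matrix.mul_nonsing_inv _ hN))

theorem KE_Rel_one_of_E {M : Matrix ι ι A} (h : M ∈ E ι A) : KE_Rel M (1 : Matrix (Fin 0) (Fin 0) A) := by
  have h1 := KE_Rel_mul_E (1 : Matrix ι ι A) h
  rw [Matrix.one_mul] at h1
  refine h1.trans ?_
  refine KE_Rel.symm ?_
  refine (KE_Rel_dsum_one (κ := ι) (1 : Matrix (Fin 0) (Fin 0) A)).trans ?_
  rw [KE_dsum_one]
  have h2 := KE_Rel_submatrix (1 : Matrix (Fin 0 ⊕ ι) (Fin 0 ⊕ ι) A) (Equiv.emptySum (Fin 0) ι).symm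
  rwa [KE_one_submatrix] at h2

theorem KE_exact {M : Matrix ι ι A} (h : KE_Rel M (1 : Matrix (Fin 0) (Fin 0) A)) :
    ∃ N : ℕ, dsum M (1 : Matrix (Fin N) (Fin N) A) ∈ E (ι ⊕ Fin N) A := by
  obtain ⟨α, β, i1, i2, i3, i4, e, P, hP, h1⟩ := h
  rw [KE_dsum_one, Matrix.one_mul] at h1
  refine ⟨Fintype.card α, ?_⟩
  have h2 : dsum M (1 : Matrix α α A) ∈ E (ι ⊕ α) A := by
    have h3 := E_submatrix e.symm (h1 ▸ hP)
    rw [Matrix.submatrix_submatrix] at h3
    simpa using h3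
  have h4 := E_submatrix ((Equiv.refl ι).sumCongr (Fintype.equivFin α).symm) h2
  have h5 : (dsum M (1 : Matrix α α A)).submatrix ((Equiv.refl ι).sumCongr (Fintype.equivFin α).symm)
      ((Equiv.refl ι).sumCongr (Fintype.equivFin α).symm) = dsum M 1 := by
    have h6 : (dsum M (1 : Matrix α α A)).submatrix ((Equiv.refl ι).sumCongr (Fintype.equivFin α).symm)
      ((Equiv.refl ι).sumCongr (Fintype.equivFin α).symm) =
        dsum M ((1 : Matrix α α A).submatrix (Fintype.equivFin α).symm (Fintype.equivFin α).symm) := by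
      ext (i | i) (j | j) <;> simp [dsum, Matrix.one_apply]
    rw [h6, KE_one_submatrix]
  rwa [h5] at h4

end KE

/-! ### The group -/

section Group

variable (A : Type u) [CommRing A]

/-- invertible matrices. -/
abbrev KE_S : Type u := Σ n : ℕ, {M : Matrix (Fin n) (Fin n) A // IsUnit M.det}

instance KE_setoid : Setoid (KE_S A) where
  r x y := KE_Rel x.2.1 y.2.1
  iseqv := ⟨fun _ => KE_Rel.refl _, fun h => h.symm, fun h h' => h.trans h'⟩

/-- the group. -/
def KE_K : Type u := Quotient (KE_setoid A)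

variable {A}

/-- the class of an invertible matrix. -/
noncomputable def KE_cls {ι : Type} [Fintype ι] [DecidableEq ι] (M : Matrix ι ι A)
    (h : IsUnit M.det) : KE_K A :=
  Quotient.mk (KE_setoid A) (⟨Fintype.card ι,
    M.submatrix (Fintype.equivFin ι).symm (Fintype.equivFin ι).symm,
    by rwa [Matrix.det_submatrix_equiv_self]⟩ : KE_S A)

theorem KE_cls_eq {ι κ : Type} [Fintype ι] [DecidableEq ι] [Fintype κ] [DecidableEq κ]
    {M : Matrix ι ι A} {N : Matrix κ κ A} (h : IsUnit M.det) (h' : IsUnit N.det) :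
    KE_cls M h = KE_cls N h' ↔ KE_Rel M N := by
  constructor
  · intro h1
    have h2 : KE_Rel (M.submatrix (Fintype.equivFin ι).symm (Fintype.equivFin ι).symm)
      (N.submatrix (Fintype.equivFin κ).symm (Fintype.equivFin κ).symm) :=
      Quotient.exact h1
    exact ((KE_Rel_submatrix M _).trans h2).trans (KE_Rel_submatrix N _).symm
  · intro h1
    have h2 : KE_Rel (M.submatrix (Fintype.equivFin ι).symm (Fintype.equivFin ι).symm)
      (N.submatrix (Fintype.equivFin κ).symm (Fintype.equivFin κ).symm) :=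
      ((KE_Rel_submatrix M _).symm.trans h1).trans (KE_Rel_submatrix N _)
    exact Quotient.sound h2

theorem KE_exists (x : KE_K A) : ∃ (n : ℕ) (M : Matrix (Fin n) (Fin n) A) (h : IsUnit M.det),
    x = KE_cls M h := by
  obtain ⟨⟨n, M, h⟩, rfl⟩ := Quotient.exists_rep x
  refine ⟨n, M, h, Quotient.sound ?_⟩
  exact KE_Rel_submatrix M _

theorem KE_dsum_unit {ι κ : Type} [Fintype ι] [DecidableEq ι] [Fintype κ] [DecidableEq κ]
    {M : Matrix ι ι A} {N : Matrix κ κ A} (h : IsUnit M.det) (h' : IsUnit N.det) :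
    IsUnit (dsum M N).det := by
  rw [KE_dsum_det]
  exact h.mul h'

/-- the addition. -/
noncomputable def KE_add : KE_K A → KE_K A → KE_K A :=
  Quotient.lift₂ (fun x y => KE_cls (dsum x.2.1 y.2.1) (KE_dsum_unit x.2.2 y.2.2))
    fun _ _ _ _ h h' => (KE_cls_eq _ _).2 (KE_Rel_dsum h h')

/-- the opposite. -/
noncomputable def KE_neg : KE_K A → KE_K A :=
  Quotient.lift (fun x => KE_cls (x.2.1)⁻¹ (by
    rw [Matrix.det_nonsing_inv]; exact x.2.2.ringInverse))
    fun x y h => (KE_cls_eq _ _).2 (by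
      have hx := Matrix.mul_nonsing_inv _ x.2.2
      have hy := Matrix.mul_nonsing_inv _ y.2.2
      have hx' := Matrix.nonsing_inv_mul _ x.2.2
      have hy' := Matrix.nonsing_inv_mul _ y.2.2
      have h1 : KE_Rel x.2.1 y.2.1 := h
      have hy2 : KE_Rel (dsum y.2.1 y.2.1⁻¹) (1 : Matrix (Fin 0) (Fin 0) A) :=
        KE_Rel_one_of_E (KE_whitehead _ _ hy)
      have hx2 : KE_Rel (dsum x.2.1⁻¹ x.2.1) (1 : Matrix (Fin 0) (Fin 0) A) :=
        KE_Rel_one_of_E (KE_whitehead _ _ hx')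
      have e0 : ∀ {n : ℕ} (M : Matrix (Fin n) (Fin n) A),
          KE_Rel M (dsum M (1 : Matrix (Fin 0) (Fin 0) A)) := fun M => KE_Rel_dsum_one M
      refine (e0 _).trans ?_
      refine (KE_Rel_dsum (KE_Rel.refl _) hy2.symm).trans ?_
      refine (KE_Rel_assoc _ _ _).symm.trans ?_
      refine (KE_Rel_dsum_left (KE_Rel_dsum (KE_Rel.refl _) h1.symm) _).trans ?_
      refine (KE_Rel_dsum_left hx2 _).trans ?_
      exact (KE_Rel_dsum_comm _ _).trans (e0 _).symm)

theorem KE_add_cls {ι κ : Type} [Fintype ι] [DecidableEq ι] [Fintype κ] [DecidableEq κ]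
    (M : Matrix ι ι A) (N : Matrix κ κ A) (h : IsUnit M.det) (h' : IsUnit N.det) :
    KE_add (KE_cls M h) (KE_cls N h') = KE_cls (dsum M N) (KE_dsum_unit h h') := by
  have hM : IsUnit (M.submatrix (Fintype.equivFin ι).symm (Fintype.equivFin ι).symm).det := by
    rwa [Matrix.det_submatrix_equiv_self]
  have hN : IsUnit (N.submatrix (Fintype.equivFin κ).symm (Fintype.equivFin κ).symm).det := by
    rwa [Matrix.det_submatrix_equiv_self]
  exact (KE_cls_eq (KE_dsum_unit hM hN) (KE_dsum_unit h h')).2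
    (KE_Rel_dsum (KE_Rel_submatrix M _).symm (KE_Rel_submatrix N _).symm)

theorem KE_neg_cls {n : ℕ} (M : Matrix (Fin n) (Fin n) A) (h : IsUnit M.det) (h' : IsUnit M⁻¹.det) :
    KE_neg (KE_cls M h) = KE_cls M⁻¹ h' := by
  have hM : IsUnit (M.submatrix (Fintype.equivFin (Fin n)).symm
      (Fintype.equivFin (Fin n)).symm)⁻¹.det := by
    rw [Matrix.det_nonsing_inv, Matrix.det_submatrix_equiv_self]
    exact h.ringInverse
  refine (KE_cls_eq hM h').2 ?_
  have h1 : (M.submatrix (Fintype.equivFin (Fin n)).symm (Fintype.equivFin (Fin n)).symm)⁻¹ =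
      M⁻¹.submatrix (Fintype.equivFin (Fin n)).symm (Fintype.equivFin (Fin n)).symm :=
    Matrix.inv_submatrix_equiv _ _ _
  change KE_Rel (M.submatrix (Fintype.equivFin (Fin n)).symm (Fintype.equivFin (Fin n)).symm)⁻¹ _
  rw [h1]
  exact (KE_Rel_submatrix _ _).symm

/-- the zero. -/
noncomputable def KE_zero : KE_K A := KE_cls (1 : Matrix (Fin 0) (Fin 0) A) (by simp)

noncomputable instance : Add (KE_K A) := ⟨KE_add⟩
noncomputable instance : Zero (KE_K A) := ⟨KE_zero⟩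
noncomputable instance : Neg (KE_K A) := ⟨KE_neg⟩

noncomputable instance KE_grp : AddCommGroup (KE_K A) where
  nsmul := nsmulRec
  zsmul := zsmulRec
  add_assoc := by
    intro x y z
    obtain ⟨n, M, hM, rfl⟩ := KE_exists x
    obtain ⟨m, N, hN, rfl⟩ := KE_exists y
    obtain ⟨k, L, hL, rfl⟩ := KE_exists z
    change KE_add (KE_add _ _) _ = KE_add _ (KE_add _ _)
    rw [KE_add_cls, KE_add_cls, KE_add_cls, KE_add_cls]
    exact (KE_cls_eq _ _).2 (KE_Rel_assoc _ _ _)
  zero_add := by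
    intro x
    obtain ⟨n, M, hM, rfl⟩ := KE_exists x
    change KE_add KE_zero _ = _
    unfold KE_zero
    rw [KE_add_cls]
    exact (KE_cls_eq _ _).2 ((KE_Rel_dsum_comm _ _).trans (KE_Rel_dsum_one M).symm)
  add_zero := by
    intro x
    obtain ⟨n, M, hM, rfl⟩ := KE_exists x
    change KE_add _ KE_zero = _
    unfold KE_zero
    rw [KE_add_cls]
    exact (KE_cls_eq _ _).2 (KE_Rel_dsum_one M).symm
  neg_add_cancel := by
    intro x
    obtain ⟨n, M, hM, rfl⟩ := KE_exists x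
    change KE_add (KE_neg _) _ = KE_zero
    unfold KE_zero
    have h' : IsUnit M⁻¹.det := by rw [Matrix.det_nonsing_inv]; exact hM.ringInverse
    rw [KE_neg_cls M hM h', KE_add_cls]
    exact (KE_cls_eq _ _).2 (KE_Rel_one_of_E (KE_whitehead _ _ (Matrix.nonsing_inv_mul _ hM)))
  add_comm := by
    intro x y
    obtain ⟨n, M, hM, rfl⟩ := KE_exists x
    obtain ⟨m, N, hN, rfl⟩ := KE_exists y
    change KE_add _ _ = KE_add _ _
    rw [KE_add_cls, KE_add_cls]
    exact (KE_cls_eq _ _).2 (KE_Rel_dsum_comm _ _)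

open Classical in
/-- the class map. -/
noncomputable def KE_k {ι : Type} [Fintype ι] [DecidableEq ι] (M : Matrix ι ι A) : KE_K A :=
  if h : IsUnit M.det then KE_cls M h else 0

theorem KE_k_of_unit {ι : Type} [Fintype ι] [DecidableEq ι] (M : Matrix ι ι A)
    (h : IsUnit M.det) : KE_k M = KE_cls M h := by
  unfold KE_k
  rw [dif_pos h]

end Group

theorem KE : KE_stmt.{u} := by
  intro A _
  refine ⟨⟨KE_K A, fun {ι} _ _ M => KE_k M, ?_, ?_, ?_, ?_, ?_⟩⟩
  · intro ι _ _ M N hM hN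
    have hMN : IsUnit (M * N).det := by rw [Matrix.det_mul]; exact hM.mul hN
    rw [KE_k_of_unit _ hM, KE_k_of_unit _ hN, KE_k_of_unit _ hMN]
    have h1 : KE_cls M hM + KE_cls N hN = KE_cls (dsum M N) (KE_dsum_unit hM hN) :=
      KE_add_cls M N hM hN
    rw [h1]
    exact (KE_cls_eq _ _).2 (KE_Rel_mul M N hN)
  · intro ι _ _ M hM
    have h1 : IsUnit M.det := by rw [det_of_mem_E hM]; exact isUnit_one
    rw [KE_k_of_unit _ h1]
    exact (KE_cls_eq h1 (by simp)).2 (KE_Rel_one_of_E hM)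
  · intro ι κ _ _ _ _ M hM
    have h1 : IsUnit (dsum M (1 : Matrix κ κ A)).det := KE_dsum_unit hM (by simp)
    rw [KE_k_of_unit _ hM, KE_k_of_unit _ h1]
    exact (KE_cls_eq _ _).2 (KE_Rel_dsum_one M).symm
  · intro ι κ _ _ _ _ e M
    by_cases h : IsUnit M.det
    · have h1 : IsUnit (Matrix.reindex e e M).det := by
        rwa [Matrix.det_reindex_self]
      rw [KE_k_of_unit _ h, KE_k_of_unit _ h1]
      exact (KE_cls_eq _ _).2 (KE_Rel_submatrix M e.symm).symm
    · have h1 : ¬ IsUnit (Matrix.reindex e e M).det := by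
        rwa [Matrix.det_reindex_self]
      unfold KE_k
      rw [dif_neg h, dif_neg h1]
  · intro ι _ _ M hM h
    rw [KE_k_of_unit _ hM] at h
    exact KE_exact ((KE_cls_eq hM (by simp)).1 h)

end GB
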