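import Pool.Agent.helper68.GB.Spec

set_option autoImplicit false

namespace Pool.Agent.GB

open Pool.Agent.helper58.DC Pool.Agent.DI Pool.Agent.GR Pool.Agent.OB Pool.Agent.DR Pool.Agent.FI Pool.Agent.FI3 Pool.Agent.FI4 Pool.Agent.LE Pool.Agent.BR

theorem NIT_cvr {p : ℕ} {M : Ideal (integralClosure ℤ ℂ)} (hS : Setup p M) {G : Type} [Group G] [Finite G] (a c : G → ℂ)
    (ha : ∀ x, InM M (a x)) (hc : ∀ x, IntAt M (c x)) (x : G) : InM M (cv a c x) :=
  InM.finsum hS fun y => InM.mul_right hS (ha y) (hc _)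

theorem NIT_cvl {p : ℕ} {M : Ideal (integralClosure ℤ ℂ)} (hS : Setup p M) {G : Type} [Group G] [Finite G] (a c : G → ℂ)
    (ha : ∀ x, IntAt M (a x)) (hc : ∀ x, InM M (c x)) (x : G) : InM M (cv a c x) :=
  InM.finsum hS fun y => InM.mul_left hS (ha y) (hc _)

theorem NIT_cjS {G : Type} [Group G] {Q : Subgroup G} {r : G} (hr : r ∈ nz Q) : cjS r Q = Q := by
  ext x
  rw [mem_cjS]
  have h1 := (Subgroup.mem_normalizer_iff.mp hr) (r⁻¹ * x * r)
  have h2 : r * (r⁻¹ * x * r) * r⁻¹ = x := by group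
  rw [h2] at h1
  exact h1

theorem NIT_cz1 {G : Type} [Group G] {R : Subgroup G} {s x : G} (hs : s ∈ nz R) (hx : x ∈ cz R) : s * x * s⁻¹ ∈ cz R := by
  rw [Subgroup.mem_centralizer_iff] at hx ⊢
  intro h hh
  have h1 : s⁻¹ * h * s ∈ R := by
    have h2 := (Subgroup.mem_normalizer_iff.mp ((nz R).inv_mem hs)) h
    rw [inv_inv] at h2
    exact h2.mp hh
  have h3 := hx _ h1
  have h4 : h * (s * x * s⁻¹) = s * ((s⁻¹ * h * s) * x) * s⁻¹ := by group
  have h5 : s * x * s⁻¹ * h = s * (x * (s⁻¹ * h * s)) * s⁻¹ := by group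
  rw [h4, h5, h3]

theorem NIT_cz {G : Type} [Group G] {R : Subgroup G} {s x : G} (hs : s ∈ nz R) : s * x * s⁻¹ ∈ cz R ↔ x ∈ cz R := by
  constructor
  · intro h
    have h1 := NIT_cz1 ((nz R).inv_mem hs) h
    have h2 : s⁻¹ * (s * x * s⁻¹) * s⁻¹⁻¹ = x := by group
    rw [h2] at h1
    exact h1
  · exact NIT_cz1 hs

theorem NIT (hNIX : NIX_stmt) (hCJB : CJB_stmt) (hBRQ : BRQ_stmt) (hCVF : CVF_stmt) (hREP : REP_stmt) : NIT_stmt := by
  intro p M hS G _ _ Q R R' e f f' hQR h1 h2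
  have hRR' : R ≤ R' := h1.le
  obtain ⟨e₁, hN, hU⟩ := hNIX p M hS G Q R f h1.q hQR (hRR'.trans h2.nor)
  have hInv : Inv R' e₁ := by
    intro r hr x
    have hq : cjS r Q = Q := NIT_cjS (h2.nor hr)
    have hR : cjS r R = R := NIT_cjS (h1.nor hr)
    have hf : cjF r f = f := by
      funext y
      rw [cjF_apply]
      have h3 := h1.inv r⁻¹ (R'.inv_mem hr) y
      rw [inv_inv] at h3
      exact h3
    have h3 := ((hCJB p M hS G r (cz Q) e₁).2.2.2.2 Q R f).2.1.mp hN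
    rw [hq, hR, hf] at h3
    have h5 := congrFun (hU _ h3) (r * x * r⁻¹)
    rw [cjF_apply] at h5
    have h6 : r⁻¹ * (r * x * r⁻¹) * r = x := by group
    rw [h6] at h5
    exact h5.symm
  have hcz : cz R ⊓ cz R' = cz R' := inf_eq_right.mpr (Subgroup.centralizer_le hRR')
  obtain ⟨-, hf0, hfI, -⟩ := (hREP p M hS G (cz R)).2.2.2.1 f h1.q.bb
  obtain ⟨-, -, heI, -⟩ := (hREP p M hS G (cz Q)).2.2.2.1 e₁ hN.q.bb
  obtain ⟨-, -, hfI', -⟩ := (hREP p M hS G (cz R')).2.2.2.1 f' h1.r.bb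
  have hrsI : ∀ (K : Subgroup G) (a : G → ℂ), (∀ x, IntAt M (a x)) → ∀ x, IntAt M (rsk K a x) := by
    intro K a ha x
    unfold rsk
    by_cases hx : x ∈ K
    · rw [if_pos hx]
      exact ha x
    · rw [if_neg hx]
      exact IntAt.zero hS
  have hz0 : ∀ x, x ∉ cz R → rsk (cz R) e₁ x = 0 := by
    intro x hx
    unfold rsk
    rw [if_neg hx]
  have hzInv : Inv R' (rsk (cz R) e₁) := by
    intro s hs x
    unfold rsk
    by_cases hx : x ∈ cz R
    · rw [if_pos hx, if_pos ((NIT_cz (h1.nor hs)).mpr hx)]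
      exact hInv s hs x
    · rw [if_neg hx, if_neg (fun h => hx ((NIT_cz (h1.nor hs)).mp h))]
  have hA : rsk (cz R') (rsk (cz R) e₁) = rsk (cz R') e₁ := by
    funext x
    unfold rsk
    by_cases hx : x ∈ cz R'
    · rw [if_pos hx, if_pos hx, if_pos (Subgroup.centralizer_le hRR' hx)]
    · rw [if_neg hx, if_neg hx]
  have hb := hBRQ p M hS G (cz R) R' h1.r.pg (rsk (cz R) e₁) f hz0 hf0 (hrsI _ _ heI) hfI hzInv h1.inv
  rw [hcz, hA] at hb
  have h3 : ∀ x, InM M ((cv (rsk (cz R') e₁) (rsk (cz R') f) - rsk (cz R') f) x) := by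
    intro x
    have h4 : InM M (rsk (cz R') (cv (rsk (cz R) e₁) f) x - rsk (cz R') f x) := by
      unfold rsk
      by_cases hx : x ∈ cz R'
      · rw [if_pos hx, if_pos hx]
        exact hN.ef x
      · rw [if_neg hx, if_neg hx, sub_zero]
        exact InM.zero hS
    have h5 := InM.sub hS h4 (hb x)
    have e5 : (cv (rsk (cz R') e₁) (rsk (cz R') f) - rsk (cz R') f) x = rsk (cz R') (cv (rsk (cz R) e₁) f) x - rsk (cz R') f x -
        (rsk (cz R') (cv (rsk (cz R) e₁) f) x - cv (rsk (cz R') e₁) (rsk (cz R') f) x) := by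
      rw [Pi.sub_apply]
      ring
    rw [e5]
    exact h5
  have hef : ∀ x, InM M (cv (rsk (cz R') e₁) f' x - f' x) := by
    intro x
    have g1 := NIT_cvr hS _ f' h3 hfI' x
    have g2 := NIT_cvl hS (rsk (cz R') e₁) (cv (rsk (cz R') f) f' - f') (hrsI _ _ heI) (fun y => h1.ef y) x
    have g3 := h1.ef x
    obtain ⟨c1, c2, -⟩ := hCVF G
    rw [(c2 _ _ _).2.2.1, c1] at g1
    rw [(c2 _ _ _).2.2.2] at g2
    have g4 := InM.add hS (InM.sub hS g1 g2) g3
    have e6 : cv (rsk (cz R') e₁) f' x - f' x = (cv (rsk (cz R') e₁) (cv (rsk (cz R') f) f') - cv (rsk (cz R') f) f') x -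
        (cv (rsk (cz R') e₁) (cv (rsk (cz R') f) f') - cv (rsk (cz R') e₁) f') x + (cv (rsk (cz R') f) f' x - f' x) := by
      rw [Pi.sub_apply, Pi.sub_apply]
      ring
    rw [e6]
    exact g4
  have hN1 : Nin p M Q e₁ R' f' := ⟨hN.q, h2.r, h2.le, h2.nor, hInv, hef⟩
  obtain ⟨e₂, -, hU₂⟩ := hNIX p M hS G Q R' f' h2.r h2.le h2.nor
  have e7 : e = e₁ := (hU₂ e h2).trans (hU₂ e₁ hN1).symm
  rw [e7]
  exact hN

end Pool.Agent.GB
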